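import Pool.Agent.SY.Defs
import Pool.Agent.H17EF.Bridge
import Pool.Agent.H17EF.Alg

/-!
# SG: models on the cone of a projective surface, the curve is given by one form
-/

set_option autoImplicit false

open Topology Filter Metric MvPolynomial

noncomputable section

namespace Pool.Agent.H90.SG

open Pool.Agent.H36.BP (EN)
open Pool.Agent.H17BP (Surface IsForm NoZeros Eqs IsChart)
open Pool.Agent.H62.FC (Homog)
open Pool.Agent.H17LG.Variety (FunField)
open Pool.Agent.H13.SM (conTan cone)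
open Pool.Agent.H17EF (coneE LE)
open Pool.Agent.SY (ModelS)

section transport

variable {V V' : Type} [NormedAddCommGroup V] [NormedSpace ℂ V] [NormedAddCommGroup V'] [NormedSpace ℂ V']

/-- charts under a linear isomorphism -/
theorem isChart_transport (L : V ≃L[ℂ] V') {X : Set V} {σ : ℂ × ℂ → V} {τ : V → ℂ × ℂ} (h : IsChart X σ τ) :
    IsChart (L.symm ⁻¹' X) (fun p => L (σ p)) (fun y => τ (L.symm y)) where
  σ_an := ((L : V →L[ℂ] V').analyticAt _).comp h.σ_an
  σ_mem := h.σ_mem.mono fun p hp => by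
    rw [Set.mem_preimage, ContinuousLinearEquiv.symm_apply_apply]
    exact hp
  ne := fun e => h.ne ((map_eq_zero_iff L L.injective).1 e)
  τ_an := by
    have h1 : AnalyticAt ℂ τ (L.symm (L (σ 0))) := by
      rw [ContinuousLinearEquiv.symm_apply_apply]
      exact h.τ_an
    exact AnalyticAt.fun_comp (g := τ) h1 ((L.symm : V' →L[ℂ] V).analyticAt _)
  left := h.left.mono fun p hp => by rw [ContinuousLinearEquiv.symm_apply_apply, hp]
  right := by
    have h1 : Tendsto (fun y => L.symm y) (𝓝 (L (σ 0))) (𝓝 (σ 0)) := by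
      have := L.symm.continuous.tendsto (L (σ 0))
      rwa [ContinuousLinearEquiv.symm_apply_apply] at this
    filter_upwards [h1.eventually h.right] with y hy hyX
    obtain ⟨c, hc, hcy⟩ := hy hyX
    refine ⟨c, hc, ?_⟩
    have h2 := congrArg L hcy
    rwa [ContinuousLinearEquiv.apply_symm_apply, map_smul] at h2
  inv := by
    have h1 : Tendsto (fun p : V' × ℂ => (L.symm p.1, p.2)) (𝓝 (L (σ 0), (1 : ℂ))) (𝓝 (σ 0, (1 : ℂ))) := by
      have h2 : Continuous (fun p : V' × ℂ => (L.symm p.1, p.2)) := by fun_prop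
      have h3 := h2.tendsto (L (σ 0), (1 : ℂ))
      simpa only [ContinuousLinearEquiv.symm_apply_apply] using h3
    filter_upwards [h1.eventually h.inv] with p hp
    rw [map_smul]
    exact hp

/-- charts under the inverse of a linear isomorphism -/
theorem isChart_transport_symm (L : V ≃L[ℂ] V') {X : Set V} {σ : ℂ × ℂ → V'} {τ : V' → ℂ × ℂ} (h : IsChart (L.symm ⁻¹' X) σ τ) :
    IsChart X (fun p => L.symm (σ p)) (fun y => τ (L y)) := by
  have h1 := isChart_transport L.symm h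
  have h2 : (L.symm.symm ⁻¹' (L.symm ⁻¹' X) : Set V) = X := by
    ext x
    simp
  rw [h2] at h1
  exact h1

theorem surface_transport (L : V ≃L[ℂ] V') {X : Set V} (h : Surface X) : Surface (L.symm ⁻¹' X) where
  zero := by
    rw [Set.mem_preimage, map_zero]
    exact h.zero
  smul := fun x hx c hc => by
    rw [Set.mem_preimage, map_smul]
    exact h.smul _ hx c hc
  closed := fun x hx hx0 => by
    rw [Set.mem_preimage]
    refine h.closed _ ?_ fun e => hx0 ((map_eq_zero_iff L.symm L.symm.injective).1 e)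
    have h1 : Set.MapsTo (fun y => L.symm y) (L.symm ⁻¹' X) X := fun y hy => hy
    exact h1.closure L.symm.continuous hx
  chart := fun x hx => by
    obtain ⟨σ, τ, h1, h2⟩ := h.chart _ hx
    refine ⟨_, _, isChart_transport L h1, ?_⟩
    show L (σ 0) = x
    rw [h2, ContinuousLinearEquiv.apply_symm_apply]

end transport

variable {N : ℕ} {P : Ideal (MvPolynomial (Fin (N + 1)) ℂ)}

/-- the cone of a smooth projective surface -/
theorem surface_coneE [P.IsPrime] (hP : Homog P) {z : Fin 2 → FunField P} (hz : IsTranscendenceBasis ℂ z)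
    (hsm : ∀ y : Fin (N + 1) → ℂ, y ≠ 0 → (∀ Q ∈ P, eval y Q = 0) → Module.finrank ℂ (conTan P y) ≤ 3) : Surface (coneE P) :=
  surface_transport (LE N) (Pool.Agent.H13.SM.surface_cone hP hz fun y hy => hsm y hy.1 hy.2)

/-- a form which is not in the ideal does not vanish on any chart -/
theorem thin_coneE [P.IsPrime] (hP : Homog P) {z : Fin 2 → FunField P} (hz : IsTranscendenceBasis ℂ z)
    (hsm : ∀ y : Fin (N + 1) → ℂ, y ≠ 0 → (∀ Q ∈ P, eval y Q = 0) → Module.finrank ℂ (conTan P y) ≤ 3)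
    {Q : MvPolynomial (Fin (N + 1)) ℂ} {D : ℕ} (hQ : Q.IsHomogeneous D) (hQP : Q ∉ P) {σ : ℂ × ℂ → EN N} {τ : EN N → ℂ × ℂ}
    (h : IsChart (coneE P) σ τ) : ∃ᶠ p in 𝓝 (0 : ℂ × ℂ), eval (σ p).ofLp Q ≠ 0 :=
  Pool.Agent.H13.SM.frequently_ne_zero hP hz (fun y hy => hsm y hy.1 hy.2) (isChart_transport_symm (LE N) h) hQ hQP

/-- the equation of a curve on the surface -/
theorem eqs_coneE {Q : MvPolynomial (Fin (N + 1)) ℂ} {D : ℕ} (hD : 1 ≤ D) (hQ : Q.IsHomogeneous D) :
    Eqs (coneE P) {x | x ∈ coneE P ∧ eval x.ofLp Q = 0} (fun (_ : Unit) (x : EN N) => eval x.ofLp Q) D where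
  pos := hD
  an := fun _ x => by
    have h : ∀ i : Fin (N + 1), AnalyticAt ℂ (fun y : EN N => y.ofLp i) x := fun i =>
      (EuclideanSpace.proj (𝕜 := ℂ) i).analyticAt x
    have := AnalyticAt.aeval_mvPolynomial (𝕜 := ℂ) h Q
    simpa [MvPolynomial.aeval_eq_eval] using this
  smul := fun _ c x => by
    have h1 : (c • x).ofLp = c • x.ofLp := rfl
    show eval (c • x).ofLp Q = c ^ D * eval x.ofLp Q
    rw [h1]
    exact Pool.Agent.H17EF.eval_smul_form hQ c x.ofLp
  mem_iff := fun x => ⟨fun h => ⟨h.1, fun _ => h.2⟩, fun h => ⟨h.1, h.2 ()⟩⟩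
  gen := fun x hx => ⟨(), Eventually.of_forall fun y hy h => ⟨hy, h⟩⟩

/-- **The model**: a smooth projective surface, a form without zeros outside the curve `{Q = 0}`. -/
theorem modelS_coneE [P.IsPrime] (hP : Homog P) {z : Fin 2 → FunField P} (hz : IsTranscendenceBasis ℂ z)
    (hsm : ∀ y : Fin (N + 1) → ℂ, y ≠ 0 → (∀ Q ∈ P, eval y Q = 0) → Module.finrank ℂ (conTan P y) ≤ 3)
    {Q : MvPolynomial (Fin (N + 1)) ℂ} {D : ℕ} (hD : 1 ≤ D) (hQ : Q.IsHomogeneous D) (hQP : Q ∉ P) {m j : ℕ} (hm : 1 ≤ m) (hj : 1 ≤ j)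
    {Ω : EN N → EN N → EN N → ℂ} (hΩ : IsForm (coneE P) m j Ω) (hnz : NoZeros (coneE P) {x | x ∈ coneE P ∧ eval x.ofLp Q = 0} Ω) :
    ModelS (coneE P) {x | x ∈ coneE P ∧ eval x.ofLp Q = 0} m j Ω (fun (_ : Unit) (x : EN N) => eval x.ofLp Q) D where
  surf := surface_coneE hP hz hsm
  one_m := hm
  one_j := hj
  form := hΩ
  noZeros := hnz
  eqs := eqs_coneE hD hQ
  thin := fun _ _ h => (thin_coneE hP hz hsm hQ hQP h).mono fun _ hp hT => hp hT.2

end Pool.Agent.H90.SG
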