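import Pool.Agent.H17BP.Div

/-!
# SG Order: a germ without zeros off `{p.1 = 0}` is a power of `p.1` times a unit
-/

set_option autoImplicit false

open Topology Filter Metric

noncomputable section

namespace Pool.Agent.H90.SG

open Pool.Agent.H17BP (exists_div_x)

/-- a germ which is not divisible by `p.1` and has no zeros off `{p.1 = 0}` is a unit -/
theorem ne_zero_of_not_div {g : ℂ × ℂ → ℂ} (hg : AnalyticAt ℂ g 0) (h0 : ∀ᶠ p in 𝓝 (0 : ℂ × ℂ), p.1 ≠ 0 → g p ≠ 0)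
    (h1 : ¬ ∀ᶠ y in 𝓝 (0 : ℂ), g (0, y) = 0) : g 0 ≠ 0 := by
  -- a ball in which everything is good
  obtain ⟨ε, hε, hb⟩ := Metric.eventually_nhds_iff_ball.1 (hg.eventually_analyticAt.and h0)
  have hmem : ∀ {s y : ℂ}, ‖s‖ < ε → ‖y‖ < ε → (s, y) ∈ ball (0 : ℂ × ℂ) ε := by
    intro s y hs hy
    rw [mem_ball_zero_iff, Prod.norm_def]
    exact max_lt hs hy
  -- isolated zero on the line `{p.1 = 0}`
  have han : AnalyticAt ℂ (fun y : ℂ => g (0, y)) 0 := by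
    have h2 : AnalyticAt ℂ (fun y : ℂ => ((0 : ℂ), y)) 0 := analyticAt_const.prod analyticAt_id
    exact AnalyticAt.fun_comp (g := g) (f := fun y : ℂ => ((0 : ℂ), y)) hg h2
  have hiso : ∀ᶠ y in 𝓝[≠] (0 : ℂ), g (0, y) ≠ 0 := han.eventually_eq_zero_or_eventually_ne_zero.resolve_left h1
  rw [eventually_nhdsWithin_iff] at hiso
  obtain ⟨ε', hε', hb'⟩ := Metric.eventually_nhds_iff_ball.1 hiso
  obtain ⟨ρ, hρ, hρε, hρε'⟩ : ∃ ρ : ℝ, 0 < ρ ∧ ρ < ε ∧ ρ < ε' :=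
    ⟨min ε ε' / 2, by positivity, by linarith [min_le_left ε ε', lt_min hε hε'], by linarith [min_le_right ε ε', lt_min hε hε']⟩
  have hne : ∀ y ∈ sphere (0 : ℂ) ρ, g (0, y) ≠ 0 := by
    intro y hy
    have hy1 : ‖y‖ = ρ := by simpa using hy
    refine hb' y (by rw [mem_ball_zero_iff, hy1]; exact hρε') ?_
    rintro rfl
    rw [norm_zero] at hy1
    exact hρ.ne hy1
  have hgc : ContinuousOn g (ball (0 : ℂ × ℂ) ε) := fun p hp => (hb p hp).1.continuousAt.continuousWithinAt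
  -- the minimum on the circle
  have hcs : ContinuousOn (fun y : ℂ => ‖g (0, y)‖) (sphere (0 : ℂ) ρ) := by
    refine ContinuousOn.norm (hgc.comp (by fun_prop) fun y hy => ?_)
    have hy1 : ‖y‖ = ρ := by simpa using hy
    exact hmem (by rw [norm_zero]; exact hε) (by rw [hy1]; exact hρε)
  obtain ⟨y₀, hy₀, hmin⟩ := (isCompact_sphere (0 : ℂ) ρ).exists_isMinOn (NormedSpace.sphere_nonempty.2 hρ.le) hcs
  set m : ℝ := ‖g (0, y₀)‖ with hm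
  have hm0 : 0 < m := norm_pos_iff.2 (hne y₀ hy₀)
  -- uniform lower bound on the circle for small `s`
  have hunif : ∀ᶠ s in 𝓝 (0 : ℂ), ∀ y ∈ sphere (0 : ℂ) ρ, m / 2 < ‖g (s, y)‖ := by
    refine (isCompact_sphere (0 : ℂ) ρ).eventually_forall_of_forall_eventually fun y hy => ?_
    have hy1 : ‖y‖ = ρ := by simpa using hy
    have h2 : ContinuousAt (fun q : ℂ × ℂ => ‖g (q.1, q.2)‖) ((0 : ℂ), y) :=
      (hb (0, y) (hmem (by rw [norm_zero]; exact hε) (by rw [hy1]; exact hρε))).1.continuousAt.norm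
    have h3 : m / 2 < ‖g (0, y)‖ := by
      have h4 : m ≤ ‖g (0, y)‖ := hmin hy
      linarith
    exact h2.eventually (lt_mem_nhds h3)
  -- the minimum principle for `s ≠ 0`
  have hlow : ∀ᶠ s in 𝓝[≠] (0 : ℂ), m / 2 ≤ ‖g (s, 0)‖ := by
    rw [eventually_nhdsWithin_iff]
    filter_upwards [hunif, ball_mem_nhds (0 : ℂ) hε] with s hs hsε hs0
    have hsε' : ‖s‖ < ε := by simpa using hsε
    have hnz : ∀ y ∈ closedBall (0 : ℂ) ρ, g (s, y) ≠ 0 := by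
      intro y hy
      have hy1 : ‖y‖ ≤ ρ := by simpa using hy
      exact (hb (s, y) (hmem hsε' (lt_of_le_of_lt hy1 hρε))).2 hs0
    have hd : DiffContOnCl ℂ (fun y : ℂ => (g (s, y))⁻¹) (ball (0 : ℂ) ρ) := by
      refine DifferentiableOn.diffContOnCl ?_
      rw [closure_ball (0 : ℂ) hρ.ne']
      intro y hy
      have hy1 : ‖y‖ ≤ ρ := by simpa using hy
      have h2 : DifferentiableAt ℂ (fun y : ℂ => g (s, y)) y := by
        have h3 : DifferentiableAt ℂ (fun y : ℂ => (s, y)) y := by fun_prop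
        exact DifferentiableAt.comp (g := g) y (hb (s, y) (hmem hsε' (lt_of_le_of_lt hy1 hρε))).1.differentiableAt h3
      exact (h2.inv (hnz y hy)).differentiableWithinAt
    have h5 := Complex.norm_le_of_forall_mem_frontier_norm_le isBounded_ball hd (C := 2 / m) (fun y hy => ?_)
      (subset_closure (mem_ball_self (x := (0 : ℂ)) hρ))
    · rw [norm_inv] at h5
      have h6 : 0 < ‖g (s, 0)‖ := norm_pos_iff.2 (hnz 0 (mem_closedBall_self hρ.le))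
      rw [inv_le_comm₀ h6 (by positivity)] at h5
      calc m / 2 = (2 / m)⁻¹ := by rw [inv_div]
        _ ≤ ‖g (s, 0)‖ := h5
    · rw [frontier_ball (0 : ℂ) hρ.ne'] at hy
      rw [norm_inv, inv_le_comm₀ (norm_pos_iff.2 (hnz y (sphere_subset_closedBall hy))) (by positivity), inv_div]
      exact (hs y hy).le
  have hlim : Tendsto (fun s : ℂ => ‖g (s, 0)‖) (𝓝[≠] 0) (𝓝 ‖g 0‖) := by
    have h2 : ContinuousAt (fun s : ℂ => ‖g (s, 0)‖) 0 := by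
      refine ContinuousAt.norm (ContinuousAt.comp (g := g) (f := fun s : ℂ => (s, (0 : ℂ))) ?_ (by fun_prop))
      exact hg.continuousAt
    exact h2.tendsto.mono_left nhdsWithin_le_nhds
  have h7 : m / 2 ≤ ‖g 0‖ := ge_of_tendsto hlim hlow
  exact norm_pos_iff.1 (by linarith)

/-- **The order lemma.** -/
theorem exists_order {f : ℂ × ℂ → ℂ} (hf : AnalyticAt ℂ f 0) (h0 : ∀ᶠ p in 𝓝 (0 : ℂ × ℂ), p.1 ≠ 0 → f p ≠ 0) :
    ∃ (μ : ℕ) (u : ℂ × ℂ → ℂ), AnalyticAt ℂ u 0 ∧ u 0 ≠ 0 ∧ ∀ᶠ p in 𝓝 (0 : ℂ × ℂ), f p = p.1 ^ μ * u p := by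
  classical
  -- the order on the line `{p.2 = 0}`
  have hline : Tendsto (fun z : ℂ => (z, (0 : ℂ))) (𝓝 0) (𝓝 (0 : ℂ × ℂ)) := by
    have : Continuous fun z : ℂ => (z, (0 : ℂ)) := by fun_prop
    exact this.tendsto 0
  have han : ∀ {g : ℂ × ℂ → ℂ}, AnalyticAt ℂ g 0 → AnalyticAt ℂ (fun z : ℂ => g (z, 0)) 0 := by
    intro g hg
    have h2 : AnalyticAt ℂ (fun z : ℂ => (z, (0 : ℂ))) 0 := analyticAt_id.prod analyticAt_const
    exact AnalyticAt.fun_comp (g := g) (f := fun z : ℂ => (z, (0 : ℂ))) hg h2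
  have hne : ¬ ∀ᶠ z in 𝓝 (0 : ℂ), f (z, 0) = 0 := by
    intro h2
    have h3 := hline.eventually h0
    have h4 : ∀ᶠ z in 𝓝[≠] (0 : ℂ), False := by
      filter_upwards [h2.filter_mono nhdsWithin_le_nhds, h3.filter_mono nhdsWithin_le_nhds, self_mem_nhdsWithin] with z g1 g2 g3
      exact g2 g3 g1
    rw [eventually_false_iff_eq_bot] at h4
    exact (NormedField.nhdsNE_neBot (0 : ℂ)).ne h4
  obtain ⟨K, w, hw, hw0, hwe⟩ := (han hf).exists_eventuallyEq_pow_smul_nonzero_iff.2 hne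
  -- the divisors
  obtain ⟨A, hA⟩ : ∃ A : ℕ → Prop, A = fun n => ∃ g : ℂ × ℂ → ℂ, AnalyticAt ℂ g 0 ∧ ∀ᶠ p in 𝓝 (0 : ℂ × ℂ), f p = p.1 ^ n * g p := ⟨_, rfl⟩
  have hA0 : A 0 := by
    rw [hA]
    exact ⟨f, hf, Eventually.of_forall fun p => by rw [pow_zero, one_mul]⟩
  have hAK : ∀ n, A n → n ≤ K := by
    rw [hA]
    rintro n ⟨g, hg, hge⟩
    by_contra hn
    push Not at hn
    obtain ⟨d, rfl⟩ : ∃ d, n = K + (d + 1) := ⟨n - K - 1, by omega⟩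
    have h2 : ∀ᶠ z in 𝓝[≠] (0 : ℂ), w z = z ^ (d + 1) * g (z, 0) := by
      filter_upwards [(hline.eventually hge).filter_mono nhdsWithin_le_nhds, hwe.filter_mono nhdsWithin_le_nhds, self_mem_nhdsWithin]
        with z g1 g2 g3
      have g3' : z ≠ 0 := g3
      have g4 : z ^ K * w z = z ^ K * (z ^ (d + 1) * g (z, 0)) := by
        have g5 : f (z, 0) = z ^ K * w z := by simpa using g2
        rw [← g5, g1, pow_add, mul_assoc]
      exact mul_left_cancel₀ (pow_ne_zero K g3') g4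
    have h3 : Tendsto (fun z => w z) (𝓝[≠] 0) (𝓝 (w 0)) := hw.continuousAt.tendsto.mono_left nhdsWithin_le_nhds
    have h4 : Tendsto (fun z : ℂ => z ^ (d + 1) * g (z, 0)) (𝓝[≠] 0) (𝓝 0) := by
      have h5 : ContinuousAt (fun z : ℂ => z ^ (d + 1) * g (z, 0)) 0 := (continuousAt_id.pow _).mul (han hg).continuousAt
      have h6 := h5.tendsto.mono_left (nhdsWithin_le_nhds (s := {(0 : ℂ)}ᶜ))
      simpa using h6
    exact hw0 (tendsto_nhds_unique (h3.congr' h2) h4)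
  obtain ⟨μ, hμ1, hμ2⟩ : ∃ μ, A μ ∧ ¬ A (μ + 1) := by
    by_contra hcon
    push Not at hcon
    have h2 : ∀ n, A n := fun n => Nat.rec hA0 (fun n ih => hcon n ih) n
    have := hAK _ (h2 (K + 1))
    omega
  rw [hA] at hμ1 hμ2
  obtain ⟨u, hu, hue⟩ := hμ1
  refine ⟨μ, u, hu, ne_zero_of_not_div hu ?_ ?_, hue⟩
  · filter_upwards [hue, h0] with p g1 g2 g3 g4
    refine g2 g3 ?_
    rw [g1, g4, mul_zero]
  · intro h2
    obtain ⟨v, hv, hve⟩ := exists_div_x hu h2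
    refine hμ2 ⟨v, hv, ?_⟩
    filter_upwards [hue, hve] with p g1 g2
    rw [g1, g2, smul_eq_mul, pow_succ, mul_assoc]

/-- The order lemma, as a two-sided bound for a root. -/
theorem exists_order_bound {f : ℂ × ℂ → ℂ} (hf : AnalyticAt ℂ f 0) (h0 : ∀ᶠ p in 𝓝 (0 : ℂ × ℂ), p.1 ≠ 0 → f p ≠ 0) (m : ℕ) :
    ∃ (μ : ℕ) (B : ℝ), 1 ≤ B ∧ ∀ᶠ p in 𝓝 (0 : ℂ × ℂ),
      ‖p.1‖ ^ ((μ : ℝ) / m) ≤ B * ‖f p‖ ^ (1 / (m : ℝ)) ∧ ‖f p‖ ^ (1 / (m : ℝ)) ≤ B * ‖p.1‖ ^ ((μ : ℝ) / m) := by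
  obtain ⟨μ, u, hu, hu0, hue⟩ := exists_order hf h0
  have hn : 0 < ‖u 0‖ := norm_pos_iff.2 hu0
  have h1 : ∀ᶠ p in 𝓝 (0 : ℂ × ℂ), ‖u p‖ < 2 * ‖u 0‖ := hu.continuousAt.norm.eventually (gt_mem_nhds (by linarith))
  have h2 : ∀ᶠ p in 𝓝 (0 : ℂ × ℂ), ‖u 0‖ / 2 < ‖u p‖ := hu.continuousAt.norm.eventually (lt_mem_nhds (by linarith))
  have hm : 0 ≤ 1 / (m : ℝ) := by positivity
  set B₁ : ℝ := (2 * ‖u 0‖) ^ (1 / (m : ℝ)) with hB₁
  set B₂ : ℝ := (‖u 0‖ / 2) ^ (1 / (m : ℝ)) with hB₂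
  have hB₂0 : 0 < B₂ := Real.rpow_pos_of_pos (by positivity) _
  refine ⟨μ, max 1 (max B₁ B₂⁻¹), le_max_left _ _, ?_⟩
  filter_upwards [hue, h1, h2] with p g1 g2 g3
  have g4 : ‖f p‖ ^ (1 / (m : ℝ)) = ‖p.1‖ ^ ((μ : ℝ) / m) * ‖u p‖ ^ (1 / (m : ℝ)) := by
    rw [g1, norm_mul, norm_pow, Real.mul_rpow (by positivity) (norm_nonneg _), ← Real.rpow_natCast, ← Real.rpow_mul (norm_nonneg _)]
    congr 2
    ring
  have g5 : 0 ≤ ‖p.1‖ ^ ((μ : ℝ) / m) := Real.rpow_nonneg (norm_nonneg _) _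
  have g6 : ‖u p‖ ^ (1 / (m : ℝ)) ≤ B₁ := Real.rpow_le_rpow (norm_nonneg _) g2.le hm
  have g7 : B₂ ≤ ‖u p‖ ^ (1 / (m : ℝ)) := Real.rpow_le_rpow (by positivity) g3.le hm
  rw [g4]
  constructor
  · have g8 : 1 ≤ max 1 (max B₁ B₂⁻¹) * ‖u p‖ ^ (1 / (m : ℝ)) := by
      calc (1 : ℝ) = B₂⁻¹ * B₂ := (inv_mul_cancel₀ hB₂0.ne').symm
        _ ≤ max 1 (max B₁ B₂⁻¹) * ‖u p‖ ^ (1 / (m : ℝ)) :=
          mul_le_mul ((le_max_right _ _).trans (le_max_right _ _)) g7 hB₂0.le (le_trans zero_le_one (le_max_left _ _))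
    calc ‖p.1‖ ^ ((μ : ℝ) / m) ≤ ‖p.1‖ ^ ((μ : ℝ) / m) * (max 1 (max B₁ B₂⁻¹) * ‖u p‖ ^ (1 / (m : ℝ))) := le_mul_of_one_le_right g5 g8
      _ = _ := by ring
  · calc ‖p.1‖ ^ ((μ : ℝ) / m) * ‖u p‖ ^ (1 / (m : ℝ)) ≤ ‖p.1‖ ^ ((μ : ℝ) / m) * max 1 (max B₁ B₂⁻¹) :=
        mul_le_mul_of_nonneg_left (g6.trans ((le_max_left _ _).trans (le_max_right _ _))) g5
      _ = _ := by ring

end Pool.Agent.H90.SG
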