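import Pool.Agent.H36.TB.Co
import Pool.Agent.H90.SG.Order

/-!
# SG CoNe: the coefficient of the form off the curve, and its order
-/

set_option autoImplicit false

open Topology Filter Metric

noncomputable section

namespace Pool.Agent.H90.SG

open Pool.Agent.H17BP (Surface IsForm NoZeros IsChart Tan)
open Pool.Agent.H36.TB (oC tan_fd)

variable {V : Type} [NormedAddCommGroup V] [NormedSpace ℂ V]

/-- the three vectors of a chart are linearly independent -/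
theorem linInd_chart [CompleteSpace V] {X : Set V} {σ : ℂ × ℂ → V} {τ : V → ℂ × ℂ} (h : IsChart X σ τ) :
    ∀ᶠ p in 𝓝 (0 : ℂ × ℂ), LinearIndependent ℂ ![σ p, fderiv ℂ σ p (1, 0), fderiv ℂ σ p (0, 1)] := by
  have h1 : Tendsto σ (𝓝 0) (𝓝 (σ 0)) := h.σ_an.continuousAt
  have h2 : ∀ᶠ p in 𝓝 (0 : ℂ × ℂ), DifferentiableAt ℂ τ (σ p) := h1.eventually (h.τ_an.eventually_analyticAt.mono fun y hy => hy.differentiableAt)
  have h3 : ∀ᶠ p in 𝓝 (0 : ℂ × ℂ), ∀ᶠ q in 𝓝 (σ p, (1 : ℂ)), τ (q.2 • q.1) = τ q.1 := by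
    have h4 : Tendsto (fun p => (σ p, (1 : ℂ))) (𝓝 0) (𝓝 (σ 0, (1 : ℂ))) := h1.prodMk_nhds tendsto_const_nhds
    exact h4.eventually h.inv.eventually_nhds
  have h5 : ∀ᶠ p in 𝓝 (0 : ℂ × ℂ), σ p ≠ 0 := h.σ_an.continuousAt.eventually_ne h.ne
  filter_upwards [h2, h3, h5, h.left.eventually_nhds, h.σ_an.eventually_analyticAt] with p g1 g2 g3 g4 g5
  -- the derivative of `τ` kills `σ p`
  have e1 : fderiv ℂ τ (σ p) (σ p) = 0 := by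
    have a1 : HasDerivAt (fun c : ℂ => c • σ p) (σ p) 1 := by
      have := (hasDerivAt_id (1 : ℂ)).smul_const (σ p)
      simpa using this
    have a0 : (1 : ℂ) • σ p = σ p := one_smul ℂ _
    have a2 : HasFDerivAt τ (fderiv ℂ τ (σ p)) ((1 : ℂ) • σ p) := by
      rw [a0]
      exact g1.hasFDerivAt
    have a3 := a2.comp_hasDerivAt (1 : ℂ) a1
    have a4 : (fun c : ℂ => τ (c • σ p)) =ᶠ[𝓝 1] fun _ => τ (σ p) := by
      have a5 : Tendsto (fun c : ℂ => (σ p, c)) (𝓝 1) (𝓝 (σ p, (1 : ℂ))) := by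
        have : Continuous fun c : ℂ => (σ p, c) := by fun_prop
        exact this.tendsto 1
      exact a5.eventually g2
    have a6 : HasDerivAt (fun c : ℂ => τ (c • σ p)) 0 1 := (hasDerivAt_const (1 : ℂ) (τ (σ p))).congr_of_eventuallyEq a4
    exact a3.unique a6
  -- the derivative of `τ` inverts the derivative of `σ`
  have e2 : ∀ w, fderiv ℂ τ (σ p) (fderiv ℂ σ p w) = w := by
    intro w
    have a1 : HasFDerivAt (fun y => τ (σ y)) ((fderiv ℂ τ (σ p)).comp (fderiv ℂ σ p)) p :=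
      g1.hasFDerivAt.comp p g5.differentiableAt.hasFDerivAt
    have a2 : HasFDerivAt (fun y => τ (σ y)) (ContinuousLinearMap.id ℂ (ℂ × ℂ)) p :=
      (hasFDerivAt_id p).congr_of_eventuallyEq g4
    have a3 := a1.unique a2
    exact congrArg (fun A : (ℂ × ℂ) →L[ℂ] (ℂ × ℂ) => A w) a3
  rw [Fintype.linearIndependent_iff]
  intro a ha
  have e3 : a 0 • σ p + a 1 • fderiv ℂ σ p (1, 0) + a 2 • fderiv ℂ σ p (0, 1) = 0 := by
    simpa [Fin.sum_univ_three] using ha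
  have e4 := congrArg (fderiv ℂ τ (σ p)) e3
  rw [map_add, map_add, map_smul, map_smul, map_smul, e1, e2, e2, map_zero, smul_zero, zero_add] at e4
  have e5 : a 1 = 0 := by
    have := congrArg Prod.fst e4
    simpa using this
  have e6 : a 2 = 0 := by
    have := congrArg Prod.snd e4
    simpa using this
  have e7 : a 0 = 0 := by
    rw [e5, e6, zero_smul, zero_smul, add_zero, add_zero] at e3
    exact (smul_eq_zero.1 e3).resolve_right g3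
  intro i
  fin_cases i
  · exact e7
  · exact e5
  · exact e6

/-- the coefficient of the form is not zero off the curve -/
theorem oC_ne [CompleteSpace V] {X T : Set V} {Ω : V → V → V → ℂ} (hz : NoZeros X T Ω) {σ : ℂ × ℂ → V} {τ : V → ℂ × ℂ} (h : IsChart X σ τ) :
    ∀ᶠ p in 𝓝 (0 : ℂ × ℂ), σ p ∉ T → oC Ω σ p ≠ 0 := by
  filter_upwards [linInd_chart h, h.σ_an.eventually_analyticAt, h.σ_mem.eventually_nhds] with p h1 h2 h3 h4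
  exact hz (σ p) h3.self_of_nhds h4 _ (tan_fd h2 h3 (1, 0)) _ (tan_fd h2 h3 (0, 1)) h1

/-- **Case (I)**: near a smooth point of the curve `{p.1 = 0}` the coefficient is comparable to a power of `‖p.1‖`. -/
theorem oC_order_near [CompleteSpace V] {X T : Set V} {m j : ℕ} {Ω : V → V → V → ℂ} (hΩ : IsForm X m j Ω) (hz : NoZeros X T Ω) {σ : ℂ × ℂ → V}
    {τ : V → ℂ × ℂ} (h : IsChart X σ τ) (hT : ∀ᶠ p in 𝓝 (0 : ℂ × ℂ), p.1 ≠ 0 → σ p ∉ T) :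
    ∃ (μ : ℕ) (B : ℝ), 1 ≤ B ∧ ∀ᶠ p in 𝓝 (0 : ℂ × ℂ),
      ‖p.1‖ ^ ((μ : ℝ) / m) ≤ B * ‖oC Ω σ p‖ ^ (1 / (m : ℝ)) ∧ ‖oC Ω σ p‖ ^ (1 / (m : ℝ)) ≤ B * ‖p.1‖ ^ ((μ : ℝ) / m) := by
  refine exists_order_bound (hΩ.analytic σ 0 h.σ_an h.σ_mem) ?_ m
  filter_upwards [oC_ne hz h, hT] with p h1 h2 h3
  exact h1 (h2 h3)

/-- **Case (II)**: the same in the sector around the first axis. -/
theorem oC_order_sector [CompleteSpace V] {X T : Set V} {m j : ℕ} {Ω : V → V → V → ℂ} (hΩ : IsForm X m j Ω) (hz : NoZeros X T Ω) {σ : ℂ × ℂ → V}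
    {τ : V → ℂ × ℂ} (h : IsChart X σ τ) (hT : ∀ᶠ p in 𝓝 (0 : ℂ × ℂ), p.1 ≠ 0 → σ (p.1, p.1 * p.2) ∉ T) :
    ∃ (μ : ℕ) (B : ℝ), 1 ≤ B ∧ ∀ᶠ p in 𝓝 (0 : ℂ × ℂ),
      ‖p.1‖ ^ ((μ : ℝ) / m) ≤ B * ‖oC Ω σ (p.1, p.1 * p.2)‖ ^ (1 / (m : ℝ)) ∧
      ‖oC Ω σ (p.1, p.1 * p.2)‖ ^ (1 / (m : ℝ)) ≤ B * ‖p.1‖ ^ ((μ : ℝ) / m) := by
  have h1 : AnalyticAt ℂ (fun p : ℂ × ℂ => (p.1, p.1 * p.2)) 0 := analyticAt_fst.prod (analyticAt_fst.mul analyticAt_snd)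
  have h2 : ((0 : ℂ × ℂ).1, (0 : ℂ × ℂ).1 * (0 : ℂ × ℂ).2) = (0 : ℂ × ℂ) := by simp
  have h3 : Tendsto (fun p : ℂ × ℂ => (p.1, p.1 * p.2)) (𝓝 0) (𝓝 (0 : ℂ × ℂ)) := by
    have := h1.continuousAt.tendsto
    rwa [h2] at this
  have h4 : AnalyticAt ℂ (fun p : ℂ × ℂ => oC Ω σ (p.1, p.1 * p.2)) 0 := by
    refine AnalyticAt.fun_comp (g := oC Ω σ) (f := fun p : ℂ × ℂ => (p.1, p.1 * p.2)) ?_ h1
    rw [h2]
    exact hΩ.analytic σ 0 h.σ_an h.σ_mem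
  refine exists_order_bound h4 ?_ m
  filter_upwards [h3.eventually (oC_ne hz h), hT] with p h5 h6 h7
  exact h5 (h6 h7)

/-- if the coefficient is not zero at the point the order is zero -/
theorem oC_order_zero {X : Set V} {m j : ℕ} {Ω : V → V → V → ℂ} (hΩ : IsForm X m j Ω) {σ : ℂ × ℂ → V} {τ : V → ℂ × ℂ}
    (h : IsChart X σ τ) (h0 : oC Ω σ 0 ≠ 0) :
    ∃ B : ℝ, 1 ≤ B ∧ ∀ᶠ p in 𝓝 (0 : ℂ × ℂ), 1 ≤ B * ‖oC Ω σ p‖ ^ (1 / (m : ℝ)) ∧ ‖oC Ω σ p‖ ^ (1 / (m : ℝ)) ≤ B := by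
  have hc : ContinuousAt (oC Ω σ) 0 := (hΩ.analytic σ 0 h.σ_an h.σ_mem).continuousAt
  have hn : 0 < ‖oC Ω σ 0‖ := norm_pos_iff.2 h0
  have h1 : ∀ᶠ p in 𝓝 (0 : ℂ × ℂ), ‖oC Ω σ p‖ < 2 * ‖oC Ω σ 0‖ := hc.norm.eventually (gt_mem_nhds (by linarith))
  have h2 : ∀ᶠ p in 𝓝 (0 : ℂ × ℂ), ‖oC Ω σ 0‖ / 2 < ‖oC Ω σ p‖ := hc.norm.eventually (lt_mem_nhds (by linarith))
  have hm : 0 ≤ 1 / (m : ℝ) := by positivity
  set B₁ : ℝ := (2 * ‖oC Ω σ 0‖) ^ (1 / (m : ℝ)) with hB₁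
  set B₂ : ℝ := (‖oC Ω σ 0‖ / 2) ^ (1 / (m : ℝ)) with hB₂
  have hB₂0 : 0 < B₂ := Real.rpow_pos_of_pos (by positivity) _
  refine ⟨max 1 (max B₁ B₂⁻¹), le_max_left _ _, ?_⟩
  filter_upwards [h1, h2] with p g2 g3
  have g6 : ‖oC Ω σ p‖ ^ (1 / (m : ℝ)) ≤ B₁ := Real.rpow_le_rpow (norm_nonneg _) g2.le hm
  have g7 : B₂ ≤ ‖oC Ω σ p‖ ^ (1 / (m : ℝ)) := Real.rpow_le_rpow (by positivity) g3.le hm
  refine ⟨?_, g6.trans ((le_max_left _ _).trans (le_max_right _ _))⟩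
  calc (1 : ℝ) = B₂⁻¹ * B₂ := (inv_mul_cancel₀ hB₂0.ne').symm
    _ ≤ max 1 (max B₁ B₂⁻¹) * ‖oC Ω σ p‖ ^ (1 / (m : ℝ)) :=
      mul_le_mul ((le_max_right _ _).trans (le_max_right _ _)) g7 hB₂0.le (le_trans zero_le_one (le_max_left _ _))

end Pool.Agent.H90.SG
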