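import Pool.Agent.H36.TB.Defs

/-!
# SG DefT: the two-sided bound of the weighted energy in a sector
-/

set_option autoImplicit false

open Topology Filter Metric

noncomputable section

namespace Pool.Agent.H90.SG

open Pool.Agent.H36.TB (oC sm)
open Pool.Agent.SY (Ent)

variable {V : Type} [NormedAddCommGroup V] [NormedSpace ℂ V]

/-- The two-sided bound of the weighted energy in the sector `‖p.2‖ < ε ‖p.1‖` of the chart `(σ, τ)` at the point `σ 0`: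
`s = p.1`, `t = p.2 / p.1`. -/
def TBSec (X T : Set V) (m j : ℕ) (Ω : V → V → V → ℂ) (θ k : ℝ) (σ : ℂ × ℂ → V) (τ : V → ℂ × ℂ) (g : (ℂ → V) → ℂ → ℝ) (pn : V → ℝ)
    (D₁ : ℕ) : Prop :=
  ∃ ε B : ℝ, 0 < ε ∧ 1 ≤ B ∧ ∀ F, Ent X T F → ∀ z c : ℂ, c ≠ 0 → ‖c⁻¹ • F z - σ 0‖ < ε → (τ (c⁻¹ • F z)).1 ≠ 0 →
    ‖(τ (c⁻¹ • F z)).2‖ < ε * ‖(τ (c⁻¹ • F z)).1‖ →
    DifferentiableAt ℂ (fun w => τ (c⁻¹ • F w)) z ∧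
    ‖(τ (c⁻¹ • F z)).1‖ ^ (1 + (1 - θ) * j / (2 * m)) * ‖oC Ω σ (τ (c⁻¹ • F z))‖ ^ (1 / (m : ℝ)) *
      sm k ((τ (c⁻¹ • F z)).1, (τ (c⁻¹ • F z)).2 / (τ (c⁻¹ • F z)).1)
        (deriv (fun w => (τ (c⁻¹ • F w)).1) z, deriv (fun w => (τ (c⁻¹ • F w)).2 / (τ (c⁻¹ • F w)).1) z) * ‖c‖ ^ (-(θ * j / m)) ≤
      B * (g F z * pn (F z) ^ (-(θ * j / (m * D₁)))) ∧
    g F z * pn (F z) ^ (-(θ * j / (m * D₁))) ≤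
      B * (‖(τ (c⁻¹ • F z)).1‖ ^ (1 + (1 - θ) * j / (2 * m)) * ‖oC Ω σ (τ (c⁻¹ • F z))‖ ^ (1 / (m : ℝ)) *
      sm k ((τ (c⁻¹ • F z)).1, (τ (c⁻¹ • F z)).2 / (τ (c⁻¹ • F z)).1)
        (deriv (fun w => (τ (c⁻¹ • F w)).1) z, deriv (fun w => (τ (c⁻¹ • F w)).2 / (τ (c⁻¹ • F w)).1) z) * ‖c‖ ^ (-(θ * j / m)))

end Pool.Agent.H90.SG
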