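import Pool.Agent.H36.TB.EnI
import Pool.Agent.SY.EiI

/-!
# SG: the energy with the weight, blown up at a point of the curve first
-/

set_option autoImplicit false

open Topology Filter Metric

noncomputable section

namespace Pool.Agent.H90.SG

open Pool.Agent.H36.BP (EN fs wd Sub)
open Pool.Agent.H17BP (Pr Surface IsForm NoZeros NodalAt Eqs IsChart ResAt exists_forms)
open Pool.Agent.H14.KB (rhoS)
open Pool.Agent.H62.BU (blow total Ker phi om)
open Pool.Agent.SY (Ent Energy ModelS IsLiftB down modelS_blow exists_equiv_sum)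
open Pool.Agent.H36.TB (oC sm EnergyB TBAt)
open Pool.Agent.H36.TB (energyB_blow energyB_of_model)

variable {V : Type} [NormedAddCommGroup V] [NormedSpace ℂ V]

/-- A point of the curve of a model is blown up first. -/
theorem exists_energyB_down [FiniteDimensional ℂ V] {X T : Set V} {q : V} {m j : ℕ} {Ω : V → V → V → ℂ} {κ : Type} [Fintype κ]
    {Q : κ → V → ℂ} {D : ℕ} (h : ModelS X T m j Ω Q D) (hq : q ∈ T) {θ κ₁ : ℝ} (hθ : 0 < θ) (hθ1 : θ < 1) (hκ₁ : 0 < κ₁) {N : ℕ}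
    (L : V ≃L[ℂ] EN N) :
    ∃ (r : ℕ) (l : Fin r → V →L[ℂ] ℂ) (N' : ℕ) (L' : (Fin r → V) ≃L[ℂ] EN N') (M : ℕ) (c₀ C k : ℝ) (g : (ℂ → Fin r → V) → ℂ → ℝ)
      (pn : (Fin r → V) → ℝ) (D₁ : ℕ), Ker l q ∧ 1 ≤ M ∧ 0 < k ∧ k ≤ κ₁ ∧ k ≤ 1 / 4 ∧
      EnergyB (blow l X) (total l X T) (2 * m) j (om l j Ω) (fun y => ‖L' y‖)
        (rhoS (fun (p : κ × Fin r) (y : Fin r → V) => Q p.1 (y p.2)) D) M c₀ C g pn D₁ θ ∧
      (∀ y ∈ blow l X, TBAt (blow l X) (total l X T) (2 * m) (om l j Ω) g pn k y) ∧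
      EnergyB X T m j Ω (fun x => ‖L x‖) (rhoS Q D) M c₀ C (down l X T g) (fun x => pn (phi l x)) (2 * D₁) θ := by
  have hX := h.surf
  have hTX : T ⊆ X := h.eqs.sub
  have hT := h.eqs.cone h.surf.smul
  have hqne : q ≠ 0 := fun e => hX.zero (e ▸ hTX hq)
  obtain ⟨r, l, hl⟩ := exists_forms hqne
  have hr : 0 < r := by
    rcases Nat.eq_zero_or_pos r with h0 | h0
    · exfalso
      subst h0
      obtain ⟨σ, τ, hσ, hσ0⟩ := hX.chart q (hTX hq)
      obtain ⟨p, hp, hp2⟩ := ((h.thin σ τ hσ).and_eventually hσ.σ_mem).exists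
      obtain ⟨c, hc⟩ := (hl (σ p)).1 fun i => i.elim0
      have hc0 : c ≠ 0 := by
        rintro rfl
        rw [zero_smul] at hc
        exact hX.zero (hc ▸ hp2)
      exact hp (hc ▸ hT q hq c hc0)
    · exact h0
  obtain ⟨N', L', hL'⟩ := exists_equiv_sum L r hr
  obtain ⟨M, c₀, C, k, g, pn, D₁, hM, hk0, hk1, hk2, E, tb⟩ := energyB_of_model (modelS_blow h hl hq) hθ hθ1 hκ₁ N' L'
  exact ⟨r, l, N', L', M, c₀, C, k, g, pn, D₁, hl, hM, hk0, hk1, hk2, E, tb, energyB_blow h hl hq L L' hL' hM E⟩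

end Pool.Agent.H90.SG
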