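import Pool.Agent.H90.SG.Down
import Pool.Agent.H90.SG.DefT
import Pool.Agent.SG.Box
import Pool.Agent.H36.TB.EnM

/-!
# SG HasU: the weighted energy of a surface with a curve, with a two-sided bound in a sector at a point of the curve

`U (F, z) = g F z * pn (F z) ^ (- θ j / (m D₁))`.
-/

set_option autoImplicit false

open Topology Filter Metric

noncomputable section

namespace Pool.Agent.H90.SG

open Pool.Agent.H36.BP (EN fs wd Sub)
open Pool.Agent.H17BP (Pr Surface IsForm NoZeros NodalAt Eqs IsChart ResAt exists_forms)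
open Pool.Agent.H14.KB (rhoS)
open Pool.Agent.H62.BU (blow total Ker phi om)
open Pool.Agent.SY (Ent Energy ModelS IsLiftB down modelS_blow exists_equiv_sum)
open Pool.Agent.H36.TB (oC sm EnergyB TBAt)

variable {V : Type} [NormedAddCommGroup V] [NormedSpace ℂ V]

/-- MODULE HasU: at a point of the curve, in the chart `(σ, τ)` whose first axis is not in the secant cone of the curve. -/
theorem exists_energy_sector [FiniteDimensional ℂ V] {X T : Set V} {m j : ℕ} {Ω : V → V → V → ℂ} {κ : Type} [Fintype κ]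
    {Q : κ → V → ℂ} {D : ℕ} (h : ModelS X T m j Ω Q D) {σ : ℂ × ℂ → V} {τ : V → ℂ × ℂ} (hσ : IsChart X σ τ) (hq : σ 0 ∈ T)
    (hT : ∀ᶠ p in 𝓝 (0 : ℂ × ℂ), p.1 ≠ 0 → σ (p.1, p.1 * p.2) ∉ T)
    {θ κ₁ : ℝ} (hθ : 0 < θ) (hθ1 : θ < 1) (hκ₁ : 0 < κ₁) {N : ℕ} (L : V ≃L[ℂ] EN N) :
    ∃ (M : ℕ) (c₀ C k : ℝ) (g : (ℂ → V) → ℂ → ℝ) (pn : V → ℝ) (D₁ : ℕ), 1 ≤ M ∧ 0 < k ∧ k ≤ κ₁ ∧ k ≤ 1 / 4 ∧
      EnergyB X T m j Ω (fun x => ‖L x‖) (rhoS Q D) M c₀ C g pn D₁ θ ∧ TBSec X T m j Ω θ k σ τ g pn D₁ := by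
  obtain ⟨r, l, N', L', M, c₀, C, k, g, pn, D₁, hl, hM, hk0, hk1, hk2, E, tb, E'⟩ := exists_energyB_down h hq hθ hθ1 hκ₁ L
  refine ⟨M, c₀, C, k, down l X T g, fun x => pn (phi l x), 2 * D₁, hM, hk0, hk1, hk2, E', ?_⟩
  exact Pool.Agent.SG.box h.surf h.form h.one_m hl h.eqs.sub (h.eqs.cone h.surf.smul) hq E tb hσ rfl hT

end Pool.Agent.H90.SG
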