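import Pool.Agent.H36.TB.Defs
import Pool.Agent.H90.SG.DefT

/-!
# SG Smooth: the two-sided bound of the weighted energy at a smooth point of the curve (no blow-up)
-/

set_option autoImplicit false

open Topology Filter Metric

noncomputable section

namespace Pool.Agent.H90.SG

open Pool.Agent.H17BP (Surface IsForm IsChart)
open Pool.Agent.H36.TB (oC sm EnergyB TBAt)
open Pool.Agent.SY (Ent)

variable {V : Type} [NormedAddCommGroup V] [NormedSpace ℂ V]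

/-- The two-sided bound of the weighted energy near the smooth point `σ 0` of `T = {p.1 = 0}`. -/
def TBNear (X T : Set V) (m j : ℕ) (Ω : V → V → V → ℂ) (θ k : ℝ) (σ : ℂ × ℂ → V) (τ : V → ℂ × ℂ) (g : (ℂ → V) → ℂ → ℝ) (pn : V → ℝ)
    (D₁ : ℕ) : Prop :=
  ∃ ε B : ℝ, 0 < ε ∧ 1 ≤ B ∧ ∀ F, Ent X T F → ∀ z c : ℂ, c ≠ 0 → ‖c⁻¹ • F z - σ 0‖ < ε →
    DifferentiableAt ℂ (fun w => τ (c⁻¹ • F w)) z ∧
    ‖oC Ω σ (τ (c⁻¹ • F z))‖ ^ (1 / (m : ℝ)) * sm k (τ (c⁻¹ • F z)) (deriv (fun w => τ (c⁻¹ • F w)) z) * ‖c‖ ^ (-(θ * j / m)) ≤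
      B * (g F z * pn (F z) ^ (-(θ * j / (m * D₁)))) ∧
    g F z * pn (F z) ^ (-(θ * j / (m * D₁))) ≤
      B * (‖oC Ω σ (τ (c⁻¹ • F z))‖ ^ (1 / (m : ℝ)) * sm k (τ (c⁻¹ • F z)) (deriv (fun w => τ (c⁻¹ • F w)) z) * ‖c‖ ^ (-(θ * j / m)))

/-- a power of a number between `B⁻¹` and `B` -/
private theorem rpow_two {B x : ℝ} (hB : 1 ≤ B) (h1 : B⁻¹ ≤ x) (h2 : x ≤ B) {e : ℝ} (he : 0 ≤ e) :
    x ^ (-e) ≤ B ^ e ∧ (B ^ e)⁻¹ ≤ x ^ (-e) := by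
  have hB0 : 0 < B := lt_of_lt_of_le one_pos hB
  have hx0 : 0 < x := lt_of_lt_of_le (inv_pos.mpr hB0) h1
  rw [Real.rpow_neg hx0.le]
  constructor
  · rw [inv_le_comm₀ (Real.rpow_pos_of_pos hx0 e) (Real.rpow_pos_of_pos hB0 e), ← Real.inv_rpow hB0.le]
    exact Real.rpow_le_rpow (inv_nonneg.2 hB0.le) h1 he
  · rw [inv_le_inv₀ (Real.rpow_pos_of_pos hB0 e) (Real.rpow_pos_of_pos hx0 e)]
    exact Real.rpow_le_rpow hx0.le h2 he

/-- The bound `TBAt` in terms of the weighted energy. -/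
theorem tbNear_of_tbAt {X T : Set V} {m j : ℕ} {Ω : V → V → V → ℂ} {nu rho : V → ℝ} {M : ℕ} {c₀ C θ k : ℝ} {g : (ℂ → V) → ℂ → ℝ}
    {pn : V → ℝ} {D₁ : ℕ} (hX : Surface X) (hTs : ∀ x ∈ T, ∀ c : ℂ, c ≠ 0 → c • x ∈ T) (hm : 1 ≤ m) (hθ : 0 < θ)
    (E : EnergyB X T m j Ω nu rho M c₀ C g pn D₁ θ) {σ : ℂ × ℂ → V} {τ : V → ℂ × ℂ} (hσ : IsChart X σ τ)
    (ht : TBAt X T m Ω g pn k (σ 0)) (hT : ∀ᶠ p in 𝓝 (0 : ℂ × ℂ), (σ p ∈ T ↔ p.1 = 0)) : TBNear X T m j Ω θ k σ τ g pn D₁ := by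
  obtain ⟨B, hB, hev⟩ := ht σ τ hσ rfl hT
  have hB0 : 0 < B := lt_of_lt_of_le one_pos hB
  obtain ⟨ε, hε, hball⟩ := Metric.eventually_nhds_iff_ball.mp (hev.and hσ.τ_an.eventually_analyticAt)
  have hm0 : (0 : ℝ) < m := by
    have : 0 < m := by omega
    exact_mod_cast this
  have hD0 : (0 : ℝ) < D₁ := by
    have h4 := E.one_le
    have : 0 < D₁ := by omega
    exact_mod_cast this
  set e : ℝ := θ * j / (m * D₁) with he
  have he0 : 0 ≤ e := by positivity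
  have hKp : 0 < B ^ e := Real.rpow_pos_of_pos hB0 e
  have hK : 1 ≤ B ^ e := Real.one_le_rpow hB he0
  refine ⟨ε, B * B ^ e, hε, by nlinarith, fun F hF z c hc hz => ?_⟩
  have hy : c⁻¹ • F z ∈ ball (σ 0) ε := by
    rw [mem_ball, dist_eq_norm]
    exact hz
  obtain ⟨⟨hp1, hp2, hp3⟩, hp4⟩ := hball _ hy
  have hc' : c⁻¹ ≠ 0 := inv_ne_zero hc
  have hF' : Ent X T (fun w => c⁻¹ • F w) := by
    refine ⟨hF.diff.const_smul c⁻¹, fun w => hX.smul _ (hF.mem w) _ hc', ?_⟩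
    obtain ⟨w, hw⟩ := hF.out
    refine ⟨w, fun hcon => hw ?_⟩
    have h3 := hTs _ hcon c hc
    rwa [smul_smul, mul_inv_cancel₀ hc, one_smul] at h3
  have hg : g (fun w => c⁻¹ • F w) z = g F z := E.unit F hF (fun _ => c⁻¹) (differentiable_const _) (fun _ => hc') z
  have h5 := hp3 _ hF' z rfl
  rw [hg] at h5
  obtain ⟨h6, h7⟩ := h5
  have hdiff : DifferentiableAt ℂ (fun w => τ (c⁻¹ • F w)) z := by
    exact hp4.differentiableAt.comp z ((hF.diff z).const_smul c⁻¹)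
  have hcn : 0 < ‖c‖ := norm_pos_iff.mpr hc
  have hFz : F z = c • (c⁻¹ • F z) := by rw [smul_smul, mul_inv_cancel₀ hc, one_smul]
  -- the weight
  have hwt : pn (F z) ^ (-e) = ‖c‖ ^ (-(θ * j / m)) * pn (c⁻¹ • F z) ^ (-e) := by
    conv_lhs => rw [hFz]
    rw [E.pn_smul, Real.mul_rpow (by positivity) (E.pn_nonneg _), ← Real.rpow_natCast, ← Real.rpow_mul hcn.le]
    congr 2
    rw [he]
    field_simp
  obtain ⟨h8, h9⟩ := rpow_two hB hp1 hp2 he0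
  have hgn : 0 ≤ g F z := E.nonneg F hF z
  have hcr : 0 ≤ ‖c‖ ^ (-(θ * j / m)) := Real.rpow_nonneg hcn.le _
  set A : ℝ := ‖oC Ω σ (τ (c⁻¹ • F z))‖ ^ (1 / (m : ℝ)) * sm k (τ (c⁻¹ • F z)) (deriv (fun w => τ (c⁻¹ • F w)) z) with hA
  set R : ℝ := pn (c⁻¹ • F z) ^ (-e) with hR
  set c₁ : ℝ := ‖c‖ ^ (-(θ * j / m)) with hc₁
  have hR0 : 0 < R := lt_of_lt_of_le (inv_pos.2 hKp) h9
  have hA0 : 0 ≤ A := by
    have : 0 ≤ sm k (τ (c⁻¹ • F z)) (deriv (fun w => τ (c⁻¹ • F w)) z) := le_max_of_le_left (norm_nonneg _)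
    rw [hA]
    positivity
  refine ⟨hdiff, ?_, ?_⟩
  · rw [hwt]
    have h10 : 1 ≤ B ^ e * R := by
      have := mul_le_mul_of_nonneg_left h9 hKp.le
      rwa [mul_inv_cancel₀ hKp.ne'] at this
    calc A * c₁ ≤ (B * g F z) * c₁ := mul_le_mul_of_nonneg_right h6 hcr
      _ ≤ (B * g F z) * c₁ * (B ^ e * R) := le_mul_of_one_le_right (by positivity) h10
      _ = B * B ^ e * (g F z * (c₁ * R)) := by ring
  · rw [hwt]
    calc g F z * (c₁ * R) ≤ (B * A) * (c₁ * B ^ e) := by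
          exact mul_le_mul h7 (mul_le_mul_of_nonneg_left h8 hcr) (mul_nonneg hcr hR0.le) (by positivity)
      _ = B * B ^ e * (A * c₁) := by ring

end Pool.Agent.H90.SG
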