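import Pool.Agent.H36.TB.EnI
import Pool.Agent.SY.EiI
import Pool.Agent.H90.SG.Smooth

/-!
# SG HasUI: the weighted energy with the two-sided bound at a smooth point of the curve, without blow-up
-/

set_option autoImplicit false

open Topology Filter Metric

noncomputable section

namespace Pool.Agent.H90.SG

open Pool.Agent.H36.BP (EN)
open Pool.Agent.H17BP (Surface IsForm IsChart)
open Pool.Agent.H14.KB (rhoS)
open Pool.Agent.SY (Ent Energy ModelS)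
open Pool.Agent.H36.TB (oC sm EnergyB TBAt)
open Pool.Agent.H36.TB (energyB_of_model)

variable {V : Type} [NormedAddCommGroup V] [NormedSpace ℂ V]

/-- MODULE HasUI: at a smooth point of the curve, in the chart `(σ, τ)` in which the curve is `{p.1 = 0}`. -/
theorem exists_energy_near [FiniteDimensional ℂ V] {X T : Set V} {m j : ℕ} {Ω : V → V → V → ℂ} {κ : Type} [Fintype κ]
    {Q : κ → V → ℂ} {D : ℕ} (h : ModelS X T m j Ω Q D) {σ : ℂ × ℂ → V} {τ : V → ℂ × ℂ} (hσ : IsChart X σ τ)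
    (hT : ∀ᶠ p in 𝓝 (0 : ℂ × ℂ), (σ p ∈ T ↔ p.1 = 0))
    {θ κ₁ : ℝ} (hθ : 0 < θ) (hθ1 : θ < 1) (hκ₁ : 0 < κ₁) {N : ℕ} (L : V ≃L[ℂ] EN N) :
    ∃ (M : ℕ) (c₀ C k : ℝ) (g : (ℂ → V) → ℂ → ℝ) (pn : V → ℝ) (D₁ : ℕ), 1 ≤ M ∧ 0 < k ∧ k ≤ κ₁ ∧ k ≤ 1 / 4 ∧
      EnergyB X T m j Ω (fun x => ‖L x‖) (rhoS Q D) M c₀ C g pn D₁ θ ∧ TBNear X T m j Ω θ k σ τ g pn D₁ := by
  obtain ⟨M, c₀, C, k, g, pn, D₁, hM, hk0, hk1, hk2, E, tb⟩ := energyB_of_model h hθ hθ1 hκ₁ N L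
  refine ⟨M, c₀, C, k, g, pn, D₁, hM, hk0, hk1, hk2, E, ?_⟩
  exact tbNear_of_tbAt h.surf (h.eqs.cone h.surf.smul) h.one_m hθ E hσ (tb _ hσ.σ_mem.self_of_nhds) hT

end Pool.Agent.H90.SG
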