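import Pool.Agent.SY.DefB

/-!
# SG: a model with a hyperplane section added to the curve
-/

set_option autoImplicit false

open Topology Filter Metric

noncomputable section

namespace Pool.Agent.H90.SG

open Pool.Agent.H17BP (Pr Surface IsForm NoZeros Eqs IsChart)
open Pool.Agent.SY (ModelS)

/-- the product of two germs of analytic functions of two variables which are not zero is not zero -/
theorem frequently_mul_ne {f g : ℂ × ℂ → ℂ} (hf : AnalyticAt ℂ f 0) (hg : AnalyticAt ℂ g 0) (h1 : ∃ᶠ p in 𝓝 (0 : ℂ × ℂ), f p ≠ 0)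
    (h2 : ∃ᶠ p in 𝓝 (0 : ℂ × ℂ), g p ≠ 0) : ∃ᶠ p in 𝓝 (0 : ℂ × ℂ), f p * g p ≠ 0 := by
  intro h3
  obtain ⟨ε, hε, hb⟩ := Metric.eventually_nhds_iff_ball.1 ((hf.eventually_analyticAt.and hg.eventually_analyticAt).and h3)
  obtain ⟨p, hp, hpb⟩ := (h1.and_eventually (ball_mem_nhds (0 : ℂ × ℂ) hε)).exists
  have hgz : ∀ᶠ y in 𝓝 p, g y = 0 := by
    have e1 : ∀ᶠ y in 𝓝 p, y ∈ ball (0 : ℂ × ℂ) ε := isOpen_ball.mem_nhds hpb
    have e2 : ∀ᶠ y in 𝓝 p, f y ≠ 0 := (hb p hpb).1.1.continuousAt.eventually_ne hp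
    filter_upwards [e1, e2] with y hy1 hy2
    have := (hb y hy1).2
    rw [not_not] at this
    exact (mul_eq_zero.1 this).resolve_left hy2
  have hgan : AnalyticOnNhd ℂ g (ball (0 : ℂ × ℂ) ε) := fun y hy => (hb y hy).1.2
  have h4 := hgan.eqOn_zero_of_preconnected_of_eventuallyEq_zero (convex_ball (0 : ℂ × ℂ) ε).isPreconnected hpb hgz
  refine h2 ?_
  filter_upwards [ball_mem_nhds (0 : ℂ × ℂ) hε] with y hy
  rw [not_not]
  exact h4 hy

variable {V : Type} [NormedAddCommGroup V] [NormedSpace ℂ V]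

/-- near no chart the surface is contained in the kernel of the form: a local equation of the curve is not zero, the form is not zero -/
theorem thin_mul {X T : Set V} {κ : Type} {Q : κ → V → ℂ} {D : ℕ} (hQ : Eqs X T Q D)
    (ht : ∀ σ τ, IsChart X σ τ → ∃ᶠ p in 𝓝 (0 : ℂ × ℂ), σ p ∉ T) {l : V →L[ℂ] ℂ}
    (hl : ∀ σ τ, IsChart X σ τ → ∃ᶠ p in 𝓝 (0 : ℂ × ℂ), l (σ p) ≠ 0) (σ : ℂ × ℂ → V) (τ : V → ℂ × ℂ) (h : IsChart X σ τ) :
    ∃ᶠ p in 𝓝 (0 : ℂ × ℂ), σ p ∉ T ∪ {x | x ∈ X ∧ l x = 0} := by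
  obtain ⟨i, hi⟩ := hQ.gen (σ 0) h.σ_mem.self_of_nhds
  have h1 : AnalyticAt ℂ (fun p => Q i (σ p)) 0 := (hQ.an i (σ 0)).comp h.σ_an
  have h2 : AnalyticAt ℂ (fun p => l (σ p)) 0 := (l.analyticAt (σ 0)).comp h.σ_an
  have h3 : ∃ᶠ p in 𝓝 (0 : ℂ × ℂ), Q i (σ p) ≠ 0 := by
    have e : ∀ᶠ p in 𝓝 (0 : ℂ × ℂ), σ p ∈ X → Q i (σ p) = 0 → σ p ∈ T := h.σ_an.continuousAt.eventually hi
    exact ((ht σ τ h).and_eventually (e.and h.σ_mem)).mono fun p hp h0 => hp.1 (hp.2.1 hp.2.2 h0)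
  have h4 := frequently_mul_ne h1 h2 h3 (hl σ τ h)
  refine (h4.and_eventually h.σ_mem).mono fun p hp hT => ?_
  rcases hT with hT | hT
  · exact hp.1 (by rw [((hQ.mem_iff (σ p)).1 hT).2 i, zero_mul])
  · exact hp.1 (by rw [hT.2, mul_zero])

/-- The equations of the union of the curve with a hyperplane section. -/
theorem eqs_union {X T : Set V} {κ : Type} {Q : κ → V → ℂ} {D : ℕ} (hQ : Eqs X T Q D) (l : V →L[ℂ] ℂ) :
    Eqs X (T ∪ {x | x ∈ X ∧ l x = 0}) (fun i x => Q i x * l x) (D + 1) where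
  pos := by omega
  an := fun i x => (hQ.an i x).mul (l.analyticAt x)
  smul := fun i c x => by
    rw [hQ.smul, map_smul, smul_eq_mul, pow_succ]
    ring
  mem_iff := fun x => by
    constructor
    · rintro (h | h)
      · exact ⟨((hQ.mem_iff x).1 h).1, fun i => by rw [((hQ.mem_iff x).1 h).2 i, zero_mul]⟩
      · exact ⟨h.1, fun i => by rw [h.2, mul_zero]⟩
    · rintro ⟨h1, h2⟩
      by_cases h3 : l x = 0
      · exact Or.inr ⟨h1, h3⟩
      · exact Or.inl ((hQ.mem_iff x).2 ⟨h1, fun i => (mul_eq_zero.1 (h2 i)).resolve_right h3⟩)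
  gen := fun x hx => by
    obtain ⟨i, hi⟩ := hQ.gen x hx
    refine ⟨i, ?_⟩
    filter_upwards [hi] with y hy hyX h0
    rcases mul_eq_zero.1 h0 with h1 | h1
    · exact Or.inl (hy hyX h1)
    · exact Or.inr ⟨hyX, h1⟩

/-- A hyperplane section may be added to the curve of a model. -/
theorem modelS_union {X T : Set V} {m j : ℕ} {Ω : V → V → V → ℂ} {κ : Type} {Q : κ → V → ℂ} {D : ℕ} (h : ModelS X T m j Ω Q D)
    {l : V →L[ℂ] ℂ} (hl : ∀ σ τ, IsChart X σ τ → ∃ᶠ p in 𝓝 (0 : ℂ × ℂ), l (σ p) ≠ 0) :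
    ModelS X (T ∪ {x | x ∈ X ∧ l x = 0}) m j Ω (fun i x => Q i x * l x) (D + 1) where
  surf := h.surf
  one_m := h.one_m
  one_j := h.one_j
  form := h.form
  noZeros := fun x hx hxT v hv w hw hi => h.noZeros x hx (fun h' => hxT (Or.inl h')) v hv w hw hi
  eqs := eqs_union h.eqs l
  thin := fun σ τ hσ => thin_mul h.eqs h.thin hl σ τ hσ

end Pool.Agent.H90.SG
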